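import Mathlib

/-!
# A small abelian category with a nonsplit extension (test of hypotheses)
-/

open CategoryTheory CategoryTheory.Limits CategoryTheory.Abelian

namespace Pool.Agent.H76.Toy

/-- finitely generated abelian groups, a small category -/
abbrev Z1 : Type := FGModuleRepr ℤ

/-- the inclusion in the category of modules -/
noncomputable def incl : Z1 ⥤ FGModuleCat.{0} ℤ := FGModuleRepr.embed ℤ

instance : incl.IsEquivalence := inferInstanceAs (FGModuleRepr.embed ℤ).IsEquivalence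

noncomputable instance : Preadditive Z1 := .ofFullyFaithful incl.asEquivalence.fullyFaithfulFunctor

instance : incl.Additive := incl.asEquivalence.fullyFaithfulFunctor.additive_ofFullyFaithful

instance : HasFiniteLimits Z1 :=
  ⟨fun _ => Adjunction.hasLimitsOfShape_of_equivalence incl⟩

noncomputable instance : Abelian Z1 := abelianOfEquivalence incl

/-- the linear map -/
noncomputable def G : Z1 ⥤ ModuleCat.{0} ℤ := incl ⋙ forget₂ (FGModuleCat.{0} ℤ) (ModuleCat.{0} ℤ)

instance : G.Additive := inferInstanceAs (incl ⋙ forget₂ _ _).Additive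
instance : G.Full := inferInstanceAs (incl ⋙ forget₂ _ _).Full
instance : G.Faithful := inferInstanceAs (incl ⋙ forget₂ _ _).Faithful

instance (X : Z1) : Module.Finite ℤ (G.obj X) :=
  inferInstanceAs (Module.Finite ℤ (incl.obj X))

theorem surj_of_epi {E X : Z1} (e : E ⟶ X) [Epi e] : Function.Surjective (G.map e).hom := by
  have h1 : Epi (G.map e) := by
    have : Epi (incl.map e) := inferInstance
    exact inferInstanceAs (Epi ((forget₂ (FGModuleCat.{0} ℤ) (ModuleCat.{0} ℤ)).map (incl.map e)))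
  exact (ModuleCat.epi_iff_surjective _).1 h1

theorem proj (P : Z1) [Module.Projective ℤ (G.obj P)] : Projective P where
  factors {E X} f e _ := by
    obtain ⟨s, hs⟩ := Module.projective_lifting_property (G.map e).hom (G.map f).hom (surj_of_epi e)
    obtain ⟨t, ht⟩ : ∃ t : G.obj P ⟶ G.obj E, t ≫ G.map e = G.map f :=
      ⟨ModuleCat.ofHom s, by
        apply ModuleCat.hom_ext
        exact hs⟩
    refine ⟨G.preimage t, ?_⟩
    apply G.map_injective
    rw [G.map_comp, G.map_preimage, ht]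

/-- the isomorphism -/
noncomputable def objEquiv (M : Type) [AddCommGroup M] [Module ℤ M] [Module.Finite ℤ M] :
    G.obj (FGModuleRepr.ofFinite ℤ M) ≃ₗ[ℤ] M :=
  ULift.moduleEquiv.trans (FGModuleRepr.ofFiniteEquiv ℤ M)

instance : EnoughProjectives Z1 := ⟨fun X => by
  obtain ⟨n, f, hf⟩ := Module.Finite.exists_fin' ℤ (G.obj X)
  have h1 : Module.Projective ℤ (G.obj (FGModuleRepr.ofFinite ℤ (Fin n → ℤ))) :=
    Module.Projective.of_equiv (objEquiv (Fin n → ℤ)).symm
  obtain ⟨t, ht⟩ : ∃ t : G.obj (FGModuleRepr.ofFinite ℤ (Fin n → ℤ)) ⟶ G.obj X, Epi t :=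
    ⟨ModuleCat.ofHom (f ∘ₗ (objEquiv (Fin n → ℤ)).toLinearMap),
      (ModuleCat.epi_iff_surjective _).2 fun x => by
        obtain ⟨y, hy⟩ := hf x
        exact ⟨(objEquiv (Fin n → ℤ)).symm y, by
          show f ((objEquiv (Fin n → ℤ)) ((objEquiv (Fin n → ℤ)).symm y)) = x
          rw [LinearEquiv.apply_symm_apply, hy]⟩⟩
  refine ⟨{ p := FGModuleRepr.ofFinite ℤ (Fin n → ℤ), projective := proj _,
            f := G.preimage t, epi := ?_ }⟩
  apply G.epi_of_epi_map
  rw [G.map_preimage]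
  exact ht⟩

noncomputable instance : HasExt.{0} Z1 := hasExt_of_enoughProjectives Z1

/-- the group `ℤ` -/
noncomputable def A₁ : Z1 := FGModuleRepr.ofFinite ℤ ℤ

/-- multiplication by two -/
noncomputable def two : A₁ ⟶ A₁ := (2 : ℤ) • 𝟙 A₁

theorem map_two (x : G.obj A₁) : (G.map two).hom x = (2 : ℤ) • x := by
  unfold two
  rw [G.map_zsmul, G.map_id]
  rfl

instance : Mono two := by
  apply G.mono_of_mono_map
  rw [ModuleCat.mono_iff_injective]
  intro x y h
  have h1 : (2 : ℤ) • x = (2 : ℤ) • y := by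
    rw [← map_two, ← map_two]
    exact h
  have h2 : (2 : ℤ) * objEquiv ℤ x = (2 : ℤ) * objEquiv ℤ y := by
    have h3 := congrArg (objEquiv ℤ) h1
    have h4 : ∀ z : G.obj A₁, objEquiv ℤ ((2 : ℤ) • z) = (2 : ℤ) * objEquiv ℤ z :=
      fun z => (objEquiv ℤ).map_smul 2 z
    rw [← h4, ← h4]
    exact h3
  apply (objEquiv ℤ).injective
  linarith

theorem no_ret (r : A₁ ⟶ A₁) : two ≫ r ≠ 𝟙 A₁ := by
  intro h1
  have h3 : (G.map (two ≫ r)).hom ((objEquiv ℤ).symm 1) = (objEquiv ℤ).symm 1 := by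
    rw [h1, G.map_id]
    rfl
  rw [G.map_comp] at h3
  have h5 : (G.map r).hom ((G.map two).hom ((objEquiv ℤ).symm 1)) = (objEquiv ℤ).symm 1 := h3
  have h6 : (2 : ℤ) * objEquiv ℤ ((G.map r).hom ((objEquiv ℤ).symm 1)) = 1 := by
    have h4 : ∀ z : G.obj A₁, objEquiv ℤ ((2 : ℤ) • z) = (2 : ℤ) * objEquiv ℤ z :=
      fun z => (objEquiv ℤ).map_smul 2 z
    have h7 : (G.map r).hom ((2 : ℤ) • (objEquiv ℤ).symm 1) =
        (2 : ℤ) • (G.map r).hom ((objEquiv ℤ).symm 1) := (G.map r).hom.map_smul 2 _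
    have h8 : (G.map two).hom ((objEquiv ℤ).symm 1) = (2 : ℤ) • (objEquiv ℤ).symm (1 : ℤ) :=
      map_two _
    rw [h8, h7] at h5
    have h9 := congrArg (objEquiv ℤ) h5
    rw [h4] at h9
    rw [h9]
    exact LinearEquiv.apply_symm_apply _ _
  omega

/-- the sequence -/
noncomputable def seq : ShortComplex Z1 := ShortComplex.mk two (cokernel.π two) (cokernel.condition two)

theorem seq_exact : seq.ShortExact where
  exact := ShortComplex.exact_cokernel two
  mono_f := inferInstanceAs (Mono two)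
  epi_g := inferInstanceAs (Epi (cokernel.π two))

theorem ext_ne : seq_exact.extClass ≠ 0 := by
  intro h
  obtain ⟨x, hx⟩ := Ext.covariant_sequence_exact₃ seq.X₃ seq_exact (Ext.mk₀ (𝟙 seq.X₃)) (zero_add 1)
    (by rw [h, Ext.comp_zero])
  obtain ⟨s, rfl⟩ := (Ext.mk₀_bijective _ _).2 x
  rw [Ext.mk₀_comp_mk₀] at hx
  have hs : s ≫ seq.g = 𝟙 _ := (Ext.mk₀_bijective _ _).1 hx
  have σ : seq.Splitting := ShortComplex.Splitting.ofExactOfSection seq seq_exact.exact s hs
    seq_exact.mono_f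
  exact no_ret σ.r σ.f_r

end Pool.Agent.H76.Toy
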