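import Pool.Agent.H76.Toy.Surf

/-!
# A model of Last with h^(2,1) = 2 (test of hypotheses)
-/

open CategoryTheory CategoryTheory.Limits CategoryTheory.Abelian MeasureTheory
open scoped ZeroObject

namespace Pool.Agent.H76.Toy

open Pool.Agent.H76.S

/-- the generic fibre -/
abbrev E₂ : Type := Fin 2 → ℚ

/-- the line -/
noncomputable def ℓ : Submodule ℚ E₂ := Submodule.span ℚ {![1, 0]}

open Classical in
/-- the first Chern class of a subspace: lines different from `ℓ` have negative degree -/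
noncomputable def clE (W : Submodule ℚ E₂) : ℤ × ℤ :=
  if W = ⊥ then 0 else if W = ℓ ∨ W = ⊤ then 0 else (-6, -1)

theorem ell_ne : ℓ ≠ ⊥ := by
  unfold ℓ
  rw [Ne, Submodule.span_singleton_eq_bot]
  intro h
  have := congrFun h 0
  simp at this

theorem ell_rank : Module.finrank ℚ ℓ = 1 := finrank_span_singleton (by
  intro h
  have := congrFun h 0
  simp at this)

theorem rank_E : Module.finrank ℚ E₂ = 2 := by simp

theorem ell_top : ℓ ≠ ⊤ := by
  intro h
  have h1 := ell_rank
  rw [h, finrank_top, rank_E] at h1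
  norm_num at h1

theorem cls (W : Submodule ℚ E₂) : W = ⊥ ∨ W = ⊤ ∨ Module.finrank ℚ W = 1 := by
  have h1 : Module.finrank ℚ W ≤ 2 := by
    have := Submodule.finrank_le W
    rwa [rank_E] at this
  interval_cases h : Module.finrank ℚ W
  · exact Or.inl (Submodule.finrank_eq_zero.1 h)
  · exact Or.inr (Or.inr rfl)
  · exact Or.inr (Or.inl (Submodule.eq_top_of_finrank_eq (by rw [h, rank_E])))

theorem top_ne : (⊤ : Submodule ℚ E₂) ≠ ⊥ := fun h => ell_ne (le_bot_iff.1 (h ▸ le_top))

theorem clE_bot : clE ⊥ = 0 := if_pos rfl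
theorem clE_top : clE ⊤ = 0 := by
  unfold clE
  rw [if_neg top_ne, if_pos (Or.inr rfl)]
theorem clE_ell : clE ℓ = 0 := by
  unfold clE
  rw [if_neg ell_ne, if_pos (Or.inl rfl)]

theorem deg_le (W : Submodule ℚ E₂) : (clE W).2 ≤ 0 := by
  unfold clE
  split_ifs <;> norm_num

theorem deg_lt (W : Submodule ℚ E₂) (h1 : W ≠ ⊥) (h2 : W ≠ ℓ) (h3 : W ≠ ⊤) : (clE W).2 = -1 := by
  unfold clE
  rw [if_neg h1, if_neg (by tauto)]

theorem sup_top (W W' : Submodule ℚ E₂) (h1 : Module.finrank ℚ W = 1)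
    (h2 : Module.finrank ℚ W' = 1) (h : W ≠ W') : W ⊔ W' = ⊤ ∧ W ⊓ W' = ⊥ := by
  have h3 := Submodule.finrank_sup_add_finrank_inf_eq W W'
  rw [h1, h2] at h3
  rcases cls (W ⊓ W') with h4 | h4 | h4
  · refine ⟨?_, h4⟩
    rw [h4, finrank_bot] at h3
    exact Submodule.eq_top_of_finrank_eq (by rw [rank_E]; omega)
  · have h5 : W = ⊤ := by
      have h6 : W ⊓ W' ≤ W := inf_le_left
      rw [h4] at h6
      exact top_le_iff.1 h6
    rw [h5, finrank_top, rank_E] at h1
    omega
  · exfalso
    apply h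
    have h5 : W ⊓ W' = W := Submodule.eq_of_le_of_finrank_le inf_le_left (by omega)
    have h6 : W ⊓ W' = W' := Submodule.eq_of_le_of_finrank_le inf_le_right (by omega)
    rw [← h5, h6]

theorem deg_super (W W' : Submodule ℚ E₂) :
    (clE W).2 + (clE W').2 ≤ (clE (W ⊓ W')).2 + (clE (W ⊔ W')).2 := by
  rcases cls W with rfl | rfl | h
  · simp [clE_bot]
  · simp [clE_top]
  · rcases cls W' with rfl | rfl | h'
    · simp [clE_bot]
    · simp [clE_top]
    · by_cases hne : W = W'
      · subst hne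
        simp
      · obtain ⟨e1, e2⟩ := sup_top W W' h h' hne
        rw [e1, e2, clE_bot, clE_top]
        have := deg_le W
        have := deg_le W'
        simp
        linarith

/-- the vector of `O` -/
def vec (b : ℤ) : E₂ := if b = 0 then ![1, 0] else 0

theorem vec_zero : Submodule.span ℚ (vec '' (({0} : Finset ℤ) : Set ℤ)) = ℓ := by
  rw [Finset.coe_singleton, Set.image_singleton]
  simp [vec, ℓ]

noncomputable def toyExtension : Extension ℚ E₂ toySurface 1 1 0 (-4) {0} where
  dim := by simp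
  v := vec
  indep := by
    have hs : Subsingleton ((({0} : Finset ℤ) : Set ℤ)) := ⟨fun a b => Subtype.ext (by
      rw [Finset.mem_singleton.1 a.2, Finset.mem_singleton.1 b.2])⟩
    show LinearIndependent ℚ fun b : ((({0} : Finset ℤ) : Set ℤ)) => vec b
    rw [linearIndependent_subsingleton_index_iff]
    rintro ⟨b, hb⟩
    rw [Finset.coe_singleton, Set.mem_singleton_iff] at hb
    subst hb
    intro h
    have := congrFun h 0
    simp [vec] at this
  cl := clE
  cl_top := by
    rw [clE_top]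
    show (0 : ℤ × ℤ) = 0 - ((∑ b ∈ ({0} : Finset ℤ), b) * 1) • ((1, 0) : ℤ × ℤ)
    simp
  cl_sum := by
    intro B' hB'
    show _ = -((∑ b ∈ B', b) * 1) • ((1, 0) : ℤ × ℤ)
    rcases Finset.subset_singleton_iff.1 hB' with rfl | rfl
    · simp [clE_bot]
    · rw [vec_zero, clE_ell]
      simp
  super W W' := by
    have h1 : ∀ v w : ℤ × ℤ, hyp (v + w) (1, 0) = v.2 + w.2 := fun v w => by simp [hyp]
    show hyp (clE W + clE W') (1, 0) ≤ hyp (clE (W ⊓ W') + clE (W ⊔ W')) (1, 0)
    rw [h1, h1]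
    exact deg_super W W'
  stable W h1 h2 := by
    exfalso
    rw [vec_zero] at h1
    rcases cls W with rfl | rfl | h
    · exact not_lt_bot h1
    · exact lt_irrefl _ h2
    · have h3 := Submodule.finrank_lt_finrank_of_lt h1
      rw [ell_rank, h] at h3
      exact lt_irrefl _ h3
  proj R hR h1 b hb h2 := by
    rw [vec_zero] at h1
    have h3 : R = ℓ := Submodule.eq_of_le_of_finrank_le h1 (by rw [hR, ell_rank])
    rw [Finset.mem_singleton] at hb
    subst hb
    left
    show -((0 : ℤ) * 1) • ((1, 0) : ℤ × ℤ) - clE R = 0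
    rw [h3, clE_ell]
    simp
  split W h1 h2 b hb := by
    rw [vec_zero] at h2 ⊢
    rw [Finset.mem_singleton] at hb
    subst hb
    have h3 : (clE W).2 = 0 := by
      have h4 : hyp (clE W) (1, 0) = 0 := h1
      simpa [hyp] using h4
    have h5 : W = ⊤ := by
      rcases cls W with rfl | rfl | h
      · rw [bot_sup_eq] at h2
        exact absurd h2 ell_top
      · rfl
      · by_cases h6 : W = ℓ
        · subst h6
          rw [sup_idem] at h2
          exact absurd h2 ell_top
        · have h7 : W ≠ ⊥ := by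
            rintro rfl
            rw [finrank_bot] at h
            norm_num at h
          have h8 : W ≠ ⊤ := by
            rintro rfl
            rw [finrank_top, rank_E] at h
            norm_num at h
          rw [deg_lt W h7 h6 h8] at h3
          norm_num at h3
    rw [h5, top_inf_eq, Finset.erase_singleton]
    simp [ell_ne]
  m := 1
  F _ := (true, 0, 0)
  fil i := if i = 0 then ⊥ else ⊤
  fil_stable _ _ := trivial
  fil_top := by simp
  fil_rk i hi := by
    interval_cases i
    · simp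
    · rw [Finset.sum_range_one, if_neg one_ne_zero, finrank_top, rank_E]
      rfl
  fil_cl i hi := by
    interval_cases i
    · simp [clE_bot]
    · rw [Finset.sum_range_one, if_neg one_ne_zero, clE_top]
      rfl
  sum_ch := by
    rw [Finset.sum_range_one]
    show (if true = true then (0 : ℤ) * 0 - 4 else 2 * ((0 : ℤ) * 0)) = -4
    simp
  slope i j _ _ := le_rfl
  hE _ := 0
  hE_sum k := by
    rw [Finset.sum_range_one]
    have h1 : toySurface.h0 (true, 0, 0) k = 0 := by
      simp [toySurface]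
    have h2 : toySurface.h1 (true, 0, 0) k = 0 := rfl
    show ((toySurface.h0 (true, 0, 0) k : ℤ) - (toySurface.h1 (true, 0, 0) k : ℤ)) ≤ ((0 : ℕ) : ℤ)
    rw [h1, h2]
    simp
  hE_sec _ h := absurd rfl h

/-- the bad integer zero is possible -/
theorem toy_test (Bad : ℤ → Prop) (hB : ∀ b, Bad b → b = 0) : Nonempty (Test toySurface Bad) := ⟨{
  d := 1
  d_pos := one_pos
  g := 1
  g_pos := one_pos
  c := 0
  c_N := by show hyp 0 (1, 0) = 0; simp [hyp]
  ch := -4
  exten := fun B hB' h => by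
    have h1 : B = {0} := by
      apply Finset.eq_singleton_iff_nonempty_unique_mem.2
      exact ⟨hB', fun b hb => hB b (h b hb)⟩
    rw [h1]
    exact ⟨ℚ, E₂, inferInstance, inferInstance, inferInstance, ⟨toyExtension⟩⟩ }⟩

open Classical in
/-- the constant functors -/
noncomputable def L₁ (b : ℤ) : ℕ ⥤ Z1 := (Functor.const ℕ).obj (if b = 0 then A₁ else 0)

theorem ext_to_zero (X Y : Z1) (hY : IsZero Y) (e : Ext X Y 1) : e = 0 := by
  have h1 : e.comp (Ext.mk₀ (𝟙 Y)) (add_zero 1) = e := Ext.comp_mk₀_id e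
  rw [← h1, hY.eq_of_src (𝟙 Y) 0, Ext.mk₀_zero, Ext.comp_zero]

theorem alive_zero : Alive (L₁ 0) seq.X₃ 0 := by
  have h0 : (if (0 : ℤ) = 0 then A₁ else 0) = A₁ := if_pos rfl
  have key : ∀ (A : Z1), A = A₁ → ∃ e : Ext seq.X₃ A 1, e ≠ 0 := by
    rintro A rfl
    exact ⟨seq_exact.extClass, ext_ne⟩
  obtain ⟨e, he⟩ := key _ h0
  refine ⟨e, fun k' h hc => he ?_⟩
  have h1 : e.comp (Ext.mk₀ ((L₁ 0).map (homOfLE h))) (add_zero 1) = e := by
    have h2 : (L₁ 0).map (homOfLE h) = 𝟙 _ := rfl
    rw [h2]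
    exact Ext.comp_mk₀_id e
  rw [← h1]
  exact hc

theorem not_alive (b : ℤ) (hb : b ≠ 0) (F : Z1) (k : ℕ) : ¬ Alive (L₁ b) F k := by
  rintro ⟨e, he⟩
  have hz : IsZero ((L₁ b).obj k) := by
    show IsZero (if b = 0 then A₁ else 0)
    rw [if_neg hb]
    exact isZero_zero _
  apply he k le_rfl
  rw [ext_to_zero _ _ hz e, Ext.zero_comp]

theorem id_lemma (X F : Z1) : Mono (𝟙 X) ∧ ∀ φ : F ⟶ cokernel (𝟙 X), φ = 0 :=
  ⟨inferInstance, fun _ => (isZero_cokernel_of_epi _).eq_of_tgt _ _⟩

open Classical in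
noncomputable def toySheaves : Sheaves Z1 where
  Semi F := F = seq.X₃
  Stable _ := True
  rk _ := 1
  jordan _ _ := Or.inl trivial
  L := L₁
  LS _ := L₁
  res _ _ := 𝟙 _
  fujita F _ k := ⟨0, fun m _ b _ => by
    have h1 : ((𝟙 (L₁ b) : L₁ b ⟶ L₁ b).app k) = 𝟙 _ := rfl
    rw [h1]
    exact ⟨inferInstance, fun e => ext_to_zero _ _ (isZero_kernel_of_mono _) e⟩⟩
  degree F _ := ⟨0, fun m b k _ _ => id_lemma (if b = 0 then A₁ else 0) F⟩
  langer F _ _ := ⟨0, fun m _ k => ⟨ℤ × ℤ, inferInstance, toySurface, toy_test _ fun b hb => by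
    by_contra h
    exact not_alive b h F k hb⟩⟩

open Classical in
/-- the cohomology -/
noncomputable def hh (F : Bool) (i n j : ℕ) : ℕ :=
  if n = 0 ∧ j = 0 then (if F then (if i = 1 ∨ i = 2 then 2 else 0)
    else (if i = 0 ∨ i = 3 then 1 else 0)) else 0

theorem hh_pos (F : Bool) (i n j : ℕ) (h : n ≠ 0 ∨ j ≠ 0) : hh F i n j = 0 := by
  unfold hh
  rw [if_neg (by tauto)]

noncomputable def toyLast (two : Prop) : Last 2 two where
  h := hh
  hS _ n _ := if n = 0 then 2 else 0
  c := 0
  miyaoka := le_rfl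
  rr n := by
    by_cases h : n = 0
    · subst h; simp [hh]
    · simp [hh_pos _ _ n 0 (Or.inl h)]
  rrT _ n := by
    by_cases h : n = 0
    · subst h; rfl
    · simp [hh_pos _ _ n 0 (Or.inl h)]
      simp [hh]
  kmm n hn := hh_pos _ _ n 0 (Or.inl hn.ne')
  lp := ⟨1, fun n hn => hh_pos _ _ n 0 (Or.inl (by omega))⟩
  top F := ⟨1, fun n hn => hh_pos _ _ n 0 (Or.inl (by omega))⟩
  defo := by simp [hh]
  rho := 2
  two_le := le_rfl
  pic := by simp [hh]
  forms := by simp [hh]
  serre F n := ⟨1, hh_pos _ _ n 1 (Or.inr one_ne_zero)⟩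
  restr F n j := by
    by_cases h : n = 0 ∧ j = 0
    · obtain ⟨rfl, rfl⟩ := h
      cases F <;> simp [hh]
    · rw [hh_pos _ _ n j (by tauto)]
      exact Nat.zero_le _
  fujita _ F := ⟨1, fun n hn j => if_neg (by omega)⟩
  one _ := ⟨Z1, inferInstance, inferInstance, inferInstance, toySheaves, fun F _ =>
    ⟨seq.X₃, 0, rfl, fun b hb => by
      have h1 : b = 0 := by
        by_contra h
        exact hb (hh_pos _ _ b 0 (Or.inl h))
      subst h1
      exact alive_zero⟩⟩

/-- The hypotheses are consistent for `h^(2,1) = 2`, both for numerical dimension one and two; the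
class in `Ext^1(T, O)` is alive. -/
theorem toy (two : Prop) : Nonempty (Last 2 two) := ⟨toyLast two⟩

/-- and for all larger values -/
theorem toy_large (h21 : ℕ) (hh' : 2 ≤ h21) (two : Prop) : Nonempty (Last h21 two) :=
  ⟨{ toyLast two with defo := (toyLast two).defo.trans hh' }⟩


end Pool.Agent.H76.Toy
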