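import Pool.Agent.H76.S.Last
import Pool.Agent.H76.Toy.Cat

/-!
# A model of Atlas, Connection, Surface, Extension, Test of S (test of hypotheses)
-/

open CategoryTheory CategoryTheory.Limits CategoryTheory.Abelian MeasureTheory
open scoped Matrix ENNReal

namespace Pool.Agent.H76.Toy

open Pool.Agent.H76.S

open Classical in
/-- one point -/
noncomputable def toyAtlas : Atlas where
  v := 1
  μ := Measure.dirac 0
  prob := inferInstance
  B a := if a = 0 then Set.univ else ∅
  fin a ha := if_neg (by omega)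
  meas_B a := by
    split_ifs
    · exact MeasurableSet.univ
    · exact MeasurableSet.empty
  simply P hP := by
    refine ⟨fun _ => P 0 0 0, ?_⟩
    rintro a b ⟨q, hq1, hq2⟩
    have ha : a = 0 := by
      by_contra h
      rw [if_neg h] at hq1
      exact hq1
    have hb : b = 0 := by
      by_contra h
      rw [if_neg h] at hq2
      exact hq2
    subst ha
    subst hb
    exact hP 0 0 0 0 (by simp)
  D := 3
  cone _ _ _ := 0
  meas_cone _ _ := measurable_const
  dens a b := by
    refine Measure.le_iff.2 fun s hs => ?_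
    rw [Measure.map_apply measurable_const hs]
    by_cases h : (0 : ℝ) ∈ s
    · have h1 : ((fun _ : ℝ × ℝ × ℝ => (0 : ℝ)) ⁻¹' s) = Set.univ := by
        ext; simp [h]
      rw [h1]
      have h2 : ((Measure.dirac (0 : ℝ)).prod (((Measure.dirac (0 : ℝ)).restrict
          ((if a = 0 then Set.univ else ∅) ∩ (if b = 0 then Set.univ else ∅))).prod
          (Measure.dirac (0 : ℝ)))) Set.univ ≤ 1 := by
        rw [← Set.univ_prod_univ, Measure.prod_prod, ← Set.univ_prod_univ, Measure.prod_prod]
        simp only [measure_univ, one_mul, mul_one]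
        exact (Measure.restrict_apply_le _ _).trans prob_le_one
      refine h2.trans ?_
      have h3 : (ENNReal.ofReal 3 • Measure.dirac (0 : ℝ)) s = ENNReal.ofReal 3 := by
        rw [Measure.smul_apply, Measure.dirac_apply_of_mem h, smul_eq_mul, mul_one]
      rw [h3]
      rw [ENNReal.one_le_ofReal]
      norm_num
    · have h1 : ((fun _ : ℝ × ℝ × ℝ => (0 : ℝ)) ⁻¹' s) = ∅ := by
        ext; simp [h]
      rw [h1, measure_empty]
      exact bot_le
  χ a l _ := if a = 0 ∧ l = 0 then 1 else 0
  meas_χ _ _ := measurable_const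
  χ_nonneg a q := by
    split_ifs <;> simp
  χ_supp a l q hq := by
    have ha : a ≠ 0 := by
      rintro rfl
      exact hq (by simp)
    rw [if_neg (by tauto)]
  χ_le a l q := by
    split_ifs <;> norm_num
  χ_sum l q := by
    rw [Finset.sum_range_one]
    simp
  pg := 1
  ω _ _ := 1
  meas_ω _ := measurable_const
  ω_le _ _ := by norm_num
  norm_ω _ _ := by simp

theorem hs_zero (R : ℕ) : hs (0 : Matrix (Fin R) (Fin R) ℂ) = 0 := by
  simp [hs]

theorem toy_conn_one : Nonempty (Connection toyAtlas 1 1 0) := ⟨{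
  e_nonneg := le_rfl
  u := fun _ _ _ => 1
  meas_u := fun _ _ => measurable_const
  orth := by
    intro i j
    rw [if_pos (Subsingleton.elim i j)]
    show ∫ _ : ℝ, ∑ _ : Fin 1, star (1 : ℂ) * 1 ∂(Measure.dirac 0) = 1
    simp
  bergman := by
    intro q w
    show ∑ _ : Fin 1, ‖w ⬝ᵥ (fun _ => (1 : ℂ))‖ ^ 2 ≤ (3 : ℝ) * ∑ r : Fin 1, ‖w r‖ ^ 2
    simp only [dotProduct, Fin.sum_univ_one, mul_one]
    nlinarith [sq_nonneg ‖w 0‖]
  P := fun _ _ _ => 1
  Y := fun _ _ l _ => if l = 0 then 1 else 0
  unit_P := fun _ _ _ => one_mem _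
  unit_Y := fun _ _ _ => one_mem _
  meas_Y := fun _ _ _ _ _ => measurable_const
  en := fun _ => 0
  meas_en := measurable_const
  bdd_en := ⟨0, fun _ => by simp⟩
  energy := by simp
  hol := by
    intro θ a b q _
    simp [hs_zero]
  gap := by
    intro θ z i w f g hw hf hg
    have h1 : ∀ q, f q = z 0 0 := by
      intro q
      rw [hf q]
      show ∑ a ∈ Finset.range 1, (if a = 0 ∧ 0 = 0 then (1 : ℂ) else 0) * w a 0 q = _
      rw [Finset.sum_range_one, hw]
      simp [dotProduct]
    have h2 : ∫ q, ‖f q‖ ^ 2 ∂toyAtlas.μ = ‖z 0 0‖ ^ 2 := by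
      simp only [h1]
      show ∫ _ : ℝ, ‖z 0 0‖ ^ 2 ∂(Measure.dirac 0) = _
      simp
    have h3 : ‖∫ q, star (toyAtlas.ω 0 q) * f q ∂toyAtlas.μ‖ ^ 2 = ‖z 0 0‖ ^ 2 := by
      simp only [h1]
      show ‖∫ _ : ℝ, star (1 : ℂ) * z 0 0 ∂(Measure.dirac 0)‖ ^ 2 = _
      simp
    show _ ≤ ∑ j ∈ Finset.range 1, _ + _
    rw [Finset.sum_range_one, h2, h3]
    refine le_add_of_nonneg_right (mul_nonneg ?_ (integral_nonneg fun q => ?_))
    · show (0 : ℝ) ≤ 3
      norm_num
    · positivity }⟩

theorem toy_conn_zero (R : ℕ) (e : ℝ) (he : 0 ≤ e) :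
    Nonempty (Connection toyAtlas R 0 e) := ⟨{
  e_nonneg := he
  u := fun i => i.elim0
  meas_u := fun i => i.elim0
  orth := fun i => i.elim0
  bergman := by
    intro q w
    rw [Finset.univ_eq_empty, Finset.sum_empty]
    refine mul_nonneg ?_ (Finset.sum_nonneg fun _ _ => by positivity)
    show (0 : ℝ) ≤ 3
    norm_num
  P := fun _ _ _ => 1
  Y := fun _ _ l _ => if l = 0 then 1 else 0
  unit_P := fun _ _ _ => one_mem _
  unit_Y := fun _ _ _ => one_mem _
  meas_Y := fun _ _ _ _ _ => measurable_const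
  en := fun _ => 0
  meas_en := measurable_const
  bdd_en := ⟨0, fun _ => by simp⟩
  energy := by simp
  hol := by
    intro θ a b q _
    simp [hs_zero]
  gap := fun _ _ i => i.elim0 }⟩

/-- the hyperbolic plane -/
def hyp (x y : ℤ × ℤ) : ℤ := x.2 * y.1 + x.1 * y.2

/-- the rank, one or two -/
def toyRk : Bool → ℕ := fun b => if b then 2 else 1

noncomputable def toySurface : Surface (ℤ × ℤ) where
  Sf := Bool × ℤ × ℤ
  I := hyp
  add x y z := by simp [hyp]; ring
  symm x y := by simp [hyp]; ring
  N₀ := (1, 0)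
  h := (1, 1)
  sq := by simp [hyp]
  pos := by simp [hyp]
  pos_h := by simp [hyp]
  hodge v hv := by
    simp only [hyp, mul_one] at hv ⊢
    have h1 : v.2 = -v.1 := by linarith
    rw [h1]
    nlinarith [sq_nonneg v.1]
  prim v h1 _ := ⟨v.1, by
    simp [hyp] at h1
    ext
    · simp
    · simp [h1]⟩
  rk F := toyRk F.1
  c1 F := F.2
  ch F := if F.1 then F.2.1 * F.2.2 - 4 else 2 * (F.2.1 * F.2.2)
  Stable _ := True
  h0 F k := if F.1 = false ∧ F.2 = (-k, 0) then 1 else 0
  h1 _ _ := 0
  O := (false, 0, 0)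
  rk_pos F := by
    unfold toyRk
    split_ifs <;> norm_num
  line := by
    rintro ⟨b, c⟩ j h1 h2 h3 k
    cases b with
    | true => simp [toyRk] at h1
    | false =>
      simp only at h3
      subst h3
      refine ⟨?_, rfl⟩
      simp only [Prod.smul_mk, smul_eq_mul, mul_one, mul_zero, Prod.mk.injEq, and_true, true_and]
      by_cases h : j = -k
      · simp [h]
      · rw [if_neg h, if_neg fun h' => h (by linarith)]
  h0_O k := by
    simp only [Prod.mk.injEq, and_true, true_and]
    by_cases h : k = 0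
    · simp [h]
    · rw [if_neg h, if_neg fun h' => h (by linarith)]
  h1_O := rfl
  Eff z := z = 0 ∨ 0 < z.2
  eff_nef z hz := by
    rcases hz with rfl | h
    · simp [hyp]
    · simp [hyp]; linarith
  eff_neg x y k hx hy hx0 hy0 hxy := by
    have e1 : x = 0 := by
      rcases hx with h | h
      · exact h
      · simp [hyp] at hx0; linarith
    have e2 : y = 0 := by
      rcases hy with h | h
      · exact h
      · simp [hyp] at hy0; linarith
    rw [e1, e2] at hxy
    have := congrArg Prod.fst hxy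
    simpa using this.symm
  eff_mul k h := by
    rcases h with h | h
    · simpa using congrArg Prod.fst h
    · simp at h
  ext j _ h := absurd rfl h
  bounded _ := ⟨0, fun _ _ _ _ _ _ _ _ => le_rfl⟩
  A := toyAtlas
  hermite := by
    rintro ⟨b, c⟩ _
    cases b with
    | true =>
      refine ⟨0, ?_, ?_⟩
      · have h1 : (toyAtlas.pg : ℤ) = 1 := rfl
        simp [toyRk, h1, hyp]
        ring_nf
        norm_num
      · refine toy_conn_zero _ _ ?_
        simp [toyRk, hyp]
        ring_nf
        norm_num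
    | false =>
      refine ⟨1, ?_, ?_⟩
      · have h1 : (toyAtlas.pg : ℤ) = 1 := rfl
        simp [toyRk, h1, hyp]
        ring_nf
        norm_num
      · have h2 : ((hyp c c - (toyRk false : ℤ) * (2 * (c.1 * c.2)) : ℤ) : ℝ) = 0 := by
          have : hyp c c - (toyRk false : ℤ) * (2 * (c.1 * c.2)) = 0 := by
            simp [toyRk, hyp]
            ring
          rw [this, Int.cast_zero]
        show Nonempty (Connection toyAtlas (1 ^ 2) 1 _)
        simp only [Bool.false_eq_true, if_false]
        rw [h2]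
        exact toy_conn_one

end Pool.Agent.H76.Toy
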